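import Mathlib

/-!
# MP_6ae079_co: the dual cyclic polytope `C₄(7)*` is inscribable with rational coordinates

There are 14 points with rational coordinates on the unit sphere of `ℝ⁴` whose convex hull has
exactly these points as its vertices, and its face lattice is anti-isomorphic to the face lattice
of the cyclic polytope `C₄(7)`, for all choices of the seven parameters.

How the example was found: after a stereographic projection from one vertex the other 13 vertices
lie in `ℝ³`; four of the facets become the face planes of a tetrahedron `V₁V₂V₃V₄`, the other three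
become spheres. All conditions are expressed by the powers of the `V_i` with respect to the three
spheres, and can be solved rationally for the squares of the six edges, with four free parameters
`a, b, lam, mu`. For `a = b = 3`, `lam = mu = 5/6` the resulting rational ternary quadratic form is
similar to a sum of three squares, and one may take `V₁ = (0,0,0)`, `V₂ = (29,20,37)`,
`V₃ = (0,-35,15)`, `V₄ = (29,5,2)`.
-/

set_option autoImplicit false

namespace Pool.Agent.Results.MP_6ae079_co.RationalInscription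

/-- Euclidean four-space -/
abbrev E4 : Type := EuclideanSpace ℝ (Fin 4)

/-- the point `(t, t², t³, t⁴)` of the moment curve -/
noncomputable def moment (t : ℝ) : E4 := WithLp.toLp 2 ![t, t ^ 2, t ^ 3, t ^ 4]

/-- the cyclic polytope `C₄(7)` with the parameters `t 0, …, t 6` -/
noncomputable def cyclicPolytope (t : Fin 7 → ℝ) : Set E4 :=
  convexHull ℝ (Set.range fun i => moment (t i))

/-- the face lattice of a polytope `P`: its exposed faces (among them the empty face and `P`
itself), ordered by inclusion -/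
abbrev FaceLattice (P : Set E4) : Type := {F : Set E4 // IsExposed ℝ P F}

/-! ### faces and sets of maximal vertices -/

/-- `M` is empty or the set of the indices where a linear form is maximal -/
def IsArg {ι : Type} (v : ι → E4) (M : Finset ι) : Prop :=
  M = ∅ ∨ ∃ l : StrongDual ℝ E4, ∀ i, i ∈ M ↔ ∀ j, l (v j) ≤ l (v i)

theorem face_eq {ι : Type} (v : ι → E4) (F : Set E4)
    (hF : IsExposed ℝ (convexHull ℝ (Set.range v)) F) :
    F = convexHull ℝ (v '' {i | v i ∈ F}) := by
  classical
  rcases Set.eq_empty_or_nonempty F with rfl | hne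
  · simp
  obtain ⟨l, hl⟩ := hF hne
  have hconv : Convex ℝ F := hF.convex (convex_convexHull ℝ _)
  refine Set.Subset.antisymm (fun x hx => ?_) ?_
  · have hx' : x ∈ convexHull ℝ (Set.range v) ∧
        ∀ y ∈ convexHull ℝ (Set.range v), l y ≤ l x := by
      have h := hx
      rw [hl] at h
      exact h
    obtain ⟨ι', _, w, z, hw0, hw1, hz, hsum⟩ := mem_convexHull_iff_exists_fintype.1 hx'.1
    have hzP : ∀ i, z i ∈ convexHull ℝ (Set.range v) := fun i => subset_convexHull ℝ _ (hz i)
    have hlx : ∑ i, w i * (l x - l (z i)) = 0 := by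
      have h1 : l x = ∑ i, w i * l (z i) := by
        rw [← hsum, map_sum]
        refine Finset.sum_congr rfl fun i _ => ?_
        rw [map_smul, smul_eq_mul]
      simp only [mul_sub, Finset.sum_sub_distrib, ← Finset.sum_mul, hw1, ← h1]
      ring
    have hterm : ∀ i, w i * (l x - l (z i)) = 0 := by
      intro i
      exact (Finset.sum_eq_zero_iff_of_nonneg (fun i _ =>
        mul_nonneg (hw0 i) (sub_nonneg.2 (hx'.2 _ (hzP i))))).1 hlx i (Finset.mem_univ i)
    have hx2 : ∑ i ∈ Finset.univ.filter (fun i => w i ≠ 0), w i • z i = x := by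
      rw [← hsum]
      refine Finset.sum_filter_of_ne fun i _ hi h0 => hi ?_
      rw [h0, zero_smul]
    have hw2 : ∑ i ∈ Finset.univ.filter (fun i => w i ≠ 0), w i = 1 := by
      rw [← hw1]
      exact Finset.sum_filter_of_ne fun i _ hi => hi
    rw [← hx2]
    refine (convex_convexHull ℝ _).sum_mem (fun i _ => hw0 i) hw2 fun i hi => ?_
    apply subset_convexHull
    obtain ⟨a, ha⟩ := hz i
    refine ⟨a, ?_, ha⟩
    have hwi : w i ≠ 0 := (Finset.mem_filter.1 hi).2
    have h3 : l x = l (z i) := by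
      rcases mul_eq_zero.1 (hterm i) with h | h
      · exact absurd h hwi
      · linarith
    show v a ∈ F
    rw [ha, hl]
    refine ⟨hzP i, fun y hy => ?_⟩
    rw [← h3]
    exact hx'.2 y hy
  · refine convexHull_min ?_ hconv
    rintro _ ⟨i, hi, rfl⟩
    exact hi

/-- the set of the vertices in the face cut out by `l` -/
theorem mem_face_iff {ι : Type} (v : ι → E4) (l : StrongDual ℝ E4) (i : ι) :
    v i ∈ {x ∈ convexHull ℝ (Set.range v) | ∀ y ∈ convexHull ℝ (Set.range v), l y ≤ l x} ↔
      ∀ j, l (v j) ≤ l (v i) := by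
  constructor
  · rintro ⟨-, h⟩ j
    exact h _ (subset_convexHull ℝ _ ⟨j, rfl⟩)
  · intro h
    refine ⟨subset_convexHull ℝ _ ⟨i, rfl⟩, fun y hy => ?_⟩
    have hc : Convex ℝ {y : E4 | l y ≤ l (v i)} := by
      exact convex_halfSpace_le (IsLinearMap.mk (map_add l) (map_smul l)) _
    have hsub : convexHull ℝ (Set.range v) ⊆ {y : E4 | l y ≤ l (v i)} := by
      refine convexHull_min ?_ hc
      rintro _ ⟨j, rfl⟩
      exact h j
    exact hsub hy

open Classical in
/-- the face lattice is isomorphic to the system of the sets `M` with `IsArg v M` -/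
theorem faceIso {ι : Type} [Fintype ι] (v : ι → E4) :
    Nonempty (FaceLattice (convexHull ℝ (Set.range v)) ≃o {M : Finset ι // IsArg v M}) := by
  have harg : ∀ F : FaceLattice (convexHull ℝ (Set.range v)),
      IsArg v (Finset.univ.filter fun i => v i ∈ F.1) := by
    rintro ⟨F, hF⟩
    rcases Set.eq_empty_or_nonempty F with rfl | hne
    · left
      simp
    · obtain ⟨l, hl⟩ := hF hne
      right
      refine ⟨l, fun i => ?_⟩
      rw [← mem_face_iff, ← hl]
      simp
  let f : FaceLattice (convexHull ℝ (Set.range v)) → {M : Finset ι // IsArg v M} :=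
    fun F => ⟨Finset.univ.filter fun i => v i ∈ F.1, harg F⟩
  have hf : ∀ F i, i ∈ (f F).1 ↔ v i ∈ F.1 := by
    intro F i
    show i ∈ Finset.univ.filter (fun i => v i ∈ F.1) ↔ _
    rw [Finset.mem_filter]
    simp only [Finset.mem_univ, true_and]
  have hle : ∀ F G, f F ≤ f G ↔ F ≤ G := by
    intro F G
    constructor
    · intro h
      show F.1 ⊆ G.1
      rw [face_eq v F.1 F.2, face_eq v G.1 G.2]
      refine convexHull_mono (Set.image_mono fun i hi => ?_)
      have h1 : (f F).1 ⊆ (f G).1 := h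
      exact (hf G i).1 (h1 ((hf F i).2 hi))
    · intro h
      show (f F).1 ⊆ (f G).1
      intro i hi
      exact (hf G i).2 (h ((hf F i).1 hi))
  have hsurj : Function.Surjective f := by
    rintro ⟨M, hM⟩
    rcases hM with rfl | ⟨l, hl⟩
    · refine ⟨⟨∅, isExposed_empty⟩, ?_⟩
      apply Subtype.ext
      ext i
      rw [hf]
      simp
    · refine ⟨⟨{x ∈ convexHull ℝ (Set.range v) |
        ∀ y ∈ convexHull ℝ (Set.range v), l y ≤ l x}, fun _ => ⟨l, rfl⟩⟩, ?_⟩
      apply Subtype.ext
      ext i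
      rw [hf, hl i]
      exact mem_face_iff v l i
  exact ⟨RelIso.ofSurjective (OrderEmbedding.ofMapLEIff f hle) hsurj⟩

/-! ### combinatorics of `C₄(7)` -/

/-- the facets of `C₄(7)` (Gale's evenness condition), indices from `0` to `6` -/
def gal : Fin 14 → Finset (Fin 7) :=
  ![{0, 1, 2, 3}, {0, 1, 2, 6}, {0, 1, 3, 4}, {0, 1, 4, 5}, {0, 1, 5, 6}, {0, 2, 3, 6},
    {0, 3, 4, 6}, {0, 4, 5, 6}, {1, 2, 3, 4}, {1, 2, 4, 5}, {1, 2, 5, 6}, {2, 3, 4, 5},
    {2, 3, 5, 6}, {3, 4, 5, 6}]

/-- faces of `C₄(7)` as sets of vertices -/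
def CF (I : Finset (Fin 7)) : Prop := I = Finset.univ ∨ ∃ m, I ⊆ gal m

instance (I : Finset (Fin 7)) : Decidable (CF I) := by unfold CF; infer_instance

/-- the facets containing `I` -/
def star (I : Finset (Fin 7)) : Finset (Fin 14) := Finset.univ.filter fun m => I ⊆ gal m

/-- the intersection of the facets in `M` -/
def inter (M : Finset (Fin 14)) : Finset (Fin 7) := Finset.univ.filter fun j => ∀ m ∈ M, j ∈ gal m

theorem inter_star : ∀ I : Finset (Fin 7), CF I → inter (star I) = I := by
  decide +kernel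

theorem star_univ : star Finset.univ = ∅ := by decide +kernel


/-- number of elements of `J` above `i` -/
def up (J : Finset (Fin 7)) (i : Fin 7) : ℕ := (J.filter fun k => i < k).card

theorem gale_even : ∀ m : Fin 14, ∀ i, i ∉ gal m →
    (-1 : ℤ) ^ up (gal m) i = if m ∈ ({1, 5, 6, 7} : Finset (Fin 14)) then -1 else 1 := by
  decide +kernel

theorem gal_card : ∀ m : Fin 14, (gal m).card = 4 := by decide +kernel

/-- a set which is not contained in a facet contains an alternating triple -/
theorem nonface : ∀ I : Finset (Fin 7), (∀ m, ¬ I ⊆ gal m) →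
    ∃ r : Fin 7, ∃ c : Fin 2, ∀ i, i ≠ r → up (Finset.univ.erase r) i % 2 = c.1 → i ∈ I := by
  decide +kernel
/-! ### the cyclic polytope -/

open Polynomial in
/-- the linear form attached to a polynomial -/
noncomputable def lin (p : ℝ[X]) : StrongDual ℝ E4 :=
  ∑ k : Fin 4, p.coeff (k.1 + 1) • (EuclideanSpace.proj k : E4 →L[ℝ] ℝ)

open Polynomial in
theorem lin_moment (p : ℝ[X]) (hp : p.natDegree < 5) (x : ℝ) :
    p.eval x = p.coeff 0 + lin p (moment x) := by
  rw [Polynomial.eval_eq_sum_range' hp]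
  simp [lin, moment, Finset.sum_range_succ, Fin.sum_univ_four]
  ring

open Polynomial in
/-- the product of the factors `X - t_k`, `k ∈ J` -/
noncomputable def prodP (t : Fin 7 → ℝ) (J : Finset (Fin 7)) : ℝ[X] :=
  ∏ k ∈ J, (X - C (t k))

theorem natDegree_prodP (t : Fin 7 → ℝ) (J : Finset (Fin 7)) : (prodP t J).natDegree = J.card := by
  unfold prodP
  rw [Polynomial.natDegree_prod_of_monic _ _ fun k _ => Polynomial.monic_X_sub_C _]
  simp

theorem eval_prodP (t : Fin 7 → ℝ) (J : Finset (Fin 7)) (x : ℝ) :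
    (prodP t J).eval x = ∏ k ∈ J, (x - t k) := by
  unfold prodP
  rw [Polynomial.eval_prod]
  simp

/-- the sign of the products -/
theorem sign_prod (t : Fin 7 → ℝ) (ht : StrictMono t) (J : Finset (Fin 7)) (i : Fin 7)
    (hi : i ∉ J) : 0 < (-1 : ℝ) ^ up J i * ∏ k ∈ J, (t i - t k) := by
  have h1 : (-1 : ℝ) ^ up J i = ∏ k ∈ J, (if i < k then (-1 : ℝ) else 1) := by
    rw [Finset.prod_ite, Finset.prod_const, Finset.prod_const_one, mul_one]
    rfl
  rw [h1, ← Finset.prod_mul_distrib]
  refine Finset.prod_pos fun k hk => ?_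
  have hne : i ≠ k := fun h => hi (h ▸ hk)
  split_ifs with h
  · have := ht h
    linarith
  · have h2 : k < i := lt_of_le_of_ne (not_lt.1 h) hne.symm
    have := ht h2
    linarith

/-- sign of the facet `m` -/
def sg (m : Fin 14) : ℤ := if m ∈ ({1, 5, 6, 7} : Finset (Fin 14)) then -1 else 1

open Polynomial in
/-- the polynomial which cuts out the facet `m` -/
noncomputable def facP (t : Fin 7 → ℝ) (m : Fin 14) : ℝ[X] := C (sg m : ℝ) * prodP t (gal m)

theorem facP_pos (t : Fin 7 → ℝ) (ht : StrictMono t) (m : Fin 14) (i : Fin 7) (hi : i ∉ gal m) :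
    0 < (facP t m).eval (t i) := by
  unfold facP
  rw [Polynomial.eval_mul, Polynomial.eval_C, eval_prodP]
  have h := sign_prod t ht (gal m) i hi
  have h2 := gale_even m i hi
  have h3 : (-1 : ℝ) ^ up (gal m) i = (sg m : ℝ) := by
    have h4 : ((-1 : ℤ) ^ up (gal m) i : ℤ) = sg m := h2
    rw [← h4]
    push_cast
    rfl
  rwa [h3] at h

theorem facP_zero (t : Fin 7 → ℝ) (m : Fin 14) (i : Fin 7) (hi : i ∈ gal m) :
    (facP t m).eval (t i) = 0 := by
  unfold facP
  rw [Polynomial.eval_mul, eval_prodP, Finset.prod_eq_zero hi (sub_self _), mul_zero]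

theorem natDegree_facP (t : Fin 7 → ℝ) (m : Fin 14) : (facP t m).natDegree < 5 := by
  unfold facP
  refine lt_of_le_of_lt (Polynomial.natDegree_C_mul_le _ _) ?_
  rw [natDegree_prodP, gal_card]
  norm_num

/-- the faces of the cyclic polytope: one direction -/
theorem isArg_of_CF (t : Fin 7 → ℝ) (ht : StrictMono t) (I : Finset (Fin 7)) (hI : CF I) :
    IsArg (fun i => moment (t i)) I := by
  rcases Finset.eq_empty_or_nonempty I with rfl | hne
  · exact Or.inl rfl
  right
  have hcl := inter_star I hI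
  rcases hI with rfl | ⟨m0, hm0⟩
  · exact ⟨0, fun i => by simp⟩
  set q : Polynomial ℝ := ∑ m ∈ star I, facP t m with hq
  have hdeg : q.natDegree < 5 := by
    refine lt_of_le_of_lt (Polynomial.natDegree_sum_le _ _) ?_
    refine (Finset.fold_max_lt (5 : ℕ)).2 ⟨by norm_num, fun m _ => ?_⟩
    exact natDegree_facP t m
  have hev : ∀ i, q.eval (t i) = ∑ m ∈ star I, (facP t m).eval (t i) := by
    intro i
    rw [hq, Polynomial.eval_finsetSum]
  have hnn : ∀ m i, 0 ≤ (facP t m).eval (t i) := by
    intro m i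
    by_cases h : i ∈ gal m
    · rw [facP_zero t m i h]
    · exact (facP_pos t ht m i h).le
  have hnonneg : ∀ i, 0 ≤ q.eval (t i) := by
    intro i
    rw [hev]
    exact Finset.sum_nonneg fun m _ => hnn m i
  have hzero : ∀ i, q.eval (t i) = 0 ↔ i ∈ I := by
    intro i
    rw [hev, Finset.sum_eq_zero_iff_of_nonneg fun m _ => hnn m i]
    constructor
    · intro h
      rw [← hcl]
      refine Finset.mem_filter.2 ⟨Finset.mem_univ _, fun m hm => ?_⟩
      by_contra hc
      exact (facP_pos t ht m i hc).ne' (h m hm)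
    · intro h m hm
      exact facP_zero t m i ((Finset.mem_filter.1 hm).2 h)
  refine ⟨-lin q, fun i => ?_⟩
  have hl : ∀ j, (-lin q) (moment (t j)) = q.coeff 0 - q.eval (t j) := by
    intro j
    rw [lin_moment q hdeg]
    simp
  obtain ⟨i0, hi0⟩ := hne
  simp only [hl]
  constructor
  · intro hi j
    rw [(hzero i).2 hi]
    have := hnonneg j
    linarith
  · intro h
    have h0 := h i0
    rw [(hzero i0).2 hi0] at h0
    refine (hzero i).1 (le_antisymm ?_ (hnonneg i))
    linarith

/-- the faces of the cyclic polytope: the other direction -/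
theorem CF_of_isArg (t : Fin 7 → ℝ) (ht : StrictMono t) (I : Finset (Fin 7))
    (hI : IsArg (fun i => moment (t i)) I) : CF I := by
  by_contra hcon
  have hnf : ∀ m, ¬ I ⊆ gal m := fun m hm => hcon (Or.inr ⟨m, hm⟩)
  rcases hI with rfl | ⟨l, hl⟩
  · exact hnf 0 (Finset.empty_subset _)
  have hIne : I.Nonempty := by
    rw [Finset.nonempty_iff_ne_empty]
    rintro rfl
    exact hnf 0 (Finset.empty_subset _)
  obtain ⟨i0, hi0⟩ := hIne
  set M0 : ℝ := l (moment (t i0)) with hM0
  have hmax : ∀ j, l (moment (t j)) ≤ M0 := (hl i0).1 hi0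
  have hiff : ∀ i, i ∈ I ↔ l (moment (t i)) = M0 := by
    intro i
    constructor
    · intro hi
      exact le_antisymm (hmax i) ((hl i).1 hi i0)
    · intro hi
      refine (hl i).2 fun j => ?_
      show l (moment (t j)) ≤ l (moment (t i))
      rw [hi]
      exact hmax j
  -- the polynomial `M0 - l (moment x)`
  set e : Fin 4 → ℝ := fun k => l (EuclideanSpace.single k (1 : ℝ)) with he
  have hlx : ∀ x, l (moment x) = ∑ k : Fin 4, x ^ (k.1 + 1) * e k := by
    intro x
    have h1 : moment x = ∑ k : Fin 4, (x ^ (k.1 + 1)) • (EuclideanSpace.single k (1 : ℝ) : E4) := by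
      ext j
      fin_cases j <;> simp [moment, Fin.sum_univ_four]
    rw [h1, map_sum]
    refine Finset.sum_congr rfl fun k _ => ?_
    rw [map_smul, smul_eq_mul]
  set Q : Polynomial ℝ := Polynomial.C M0 -
    ∑ k : Fin 4, Polynomial.C (e k) * Polynomial.X ^ (k.1 + 1) with hQ
  have hQev : ∀ x, Q.eval x = M0 - l (moment x) := by
    intro x
    rw [hQ, hlx, Polynomial.eval_sub, Polynomial.eval_C, Polynomial.eval_finsetSum]
    congr 1
    refine Finset.sum_congr rfl fun k _ => ?_
    rw [Polynomial.eval_mul, Polynomial.eval_C, Polynomial.eval_pow, Polynomial.eval_X, mul_comm]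
  have hQdeg : Q.natDegree ≤ 4 := by
    rw [hQ]
    refine (Polynomial.natDegree_sub_le _ _).trans (max_le ?_ ?_)
    · rw [Polynomial.natDegree_C]
      norm_num
    · refine Polynomial.natDegree_sum_le_of_forall_le _ _ fun k _ => ?_
      refine (Polynomial.natDegree_C_mul_X_pow_le _ _).trans ?_
      have := k.2
      omega
  have hQnn : ∀ i, 0 ≤ Q.eval (t i) := fun i => by
    rw [hQev]
    have := hmax i
    linarith
  have hQz : ∀ i, Q.eval (t i) = 0 ↔ i ∈ I := fun i => by
    rw [hQev, hiff, sub_eq_zero, eq_comm]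
  obtain ⟨r, c, hrc⟩ := nonface I hnf
  set s : Finset (Fin 7) := Finset.univ.erase r with hs
  have hscard : s.card = 6 := by
    rw [hs, Finset.card_erase_of_mem (Finset.mem_univ _)]
    rfl
  have hinj : Set.InjOn t (s : Set (Fin 7)) := ht.injective.injOn
  have hdeg' : Q.degree < s.card := by
    rw [hscard]
    refine lt_of_le_of_lt Polynomial.degree_le_natDegree ?_
    have : (Q.natDegree : WithBot ℕ) ≤ (4 : ℕ) := by exact_mod_cast hQdeg
    refine lt_of_le_of_lt this ?_
    exact_mod_cast (by norm_num : (4 : ℕ) < 6)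
  have hsum := Lagrange.coeff_eq_sum hinj hdeg'
  have hc0 : Q.coeff (s.card - 1) = 0 := by
    apply Polynomial.coeff_eq_zero_of_natDegree_lt
    rw [hscard]
    omega
  rw [hc0] at hsum
  -- positive numbers
  have hP : ∀ i ∈ s, 0 < (-1 : ℝ) ^ up s i * ∏ j ∈ s.erase i, (t i - t j) := by
    intro i hi
    have h := sign_prod t ht (s.erase i) i (Finset.notMem_erase _ _)
    have h2 : up (s.erase i) i = up s i := by
      unfold up
      congr 1
      ext k
      simp only [Finset.mem_filter, Finset.mem_erase]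
      constructor
      · rintro ⟨⟨_, h1⟩, h2⟩
        exact ⟨h1, h2⟩
      · rintro ⟨h1, h2⟩
        exact ⟨⟨h2.ne', h1⟩, h2⟩
    rwa [h2] at h
  have hterm : ∀ i ∈ s, (-1 : ℝ) ^ (c.1 + 1) * (Q.eval (t i) / ∏ j ∈ s.erase i, (t i - t j)) =
      Q.eval (t i) / ((-1 : ℝ) ^ up s i * ∏ j ∈ s.erase i, (t i - t j)) := by
    intro i hi
    by_cases hpar : up s i % 2 = c.1
    · have h0 : Q.eval (t i) = 0 := by
        rw [hQz]
        exact hrc i (Finset.ne_of_mem_erase hi) hpar
      rw [h0]
      simp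
    · have hsq : (-1 : ℝ) ^ (c.1 + 1) = (-1 : ℝ) ^ up s i := by
        have h1 : (up s i) % 2 = (c.1 + 1) % 2 := by
          have := c.2
          omega
        rw [← Nat.div_add_mod (up s i) 2, h1, ← Nat.div_add_mod (c.1 + 1) 2]
        simp [pow_add, pow_mul]
      have hone : (-1 : ℝ) ^ up s i * (-1 : ℝ) ^ up s i = 1 := by
        rw [← mul_pow]
        norm_num
      rw [hsq]
      have hne : (-1 : ℝ) ^ up s i ≠ 0 := by
        intro h
        rw [h] at hone
        norm_num at hone
      have hne2 : ∏ j ∈ s.erase i, (t i - t j) ≠ 0 := by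
        intro h
        have := hP i hi
        rw [h, mul_zero] at this
        exact lt_irrefl _ this
      field_simp
      rw [sq, hone]
      ring
  have hsum2 : ∑ i ∈ s, Q.eval (t i) / ((-1 : ℝ) ^ up s i * ∏ j ∈ s.erase i, (t i - t j)) = 0 := by
    rw [← Finset.sum_congr rfl hterm, ← Finset.mul_sum, ← hsum, mul_zero]
  have hall : ∀ i ∈ s, Q.eval (t i) = 0 := by
    intro i hi
    have h := (Finset.sum_eq_zero_iff_of_nonneg fun i hi =>
      div_nonneg (hQnn i) (hP i hi).le).1 hsum2 i hi
    rcases div_eq_zero_iff.1 h with h | h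
    · exact h
    · exact absurd h (hP i hi).ne'
  have hQ0 : Q = 0 := by
    apply Polynomial.eq_zero_of_natDegree_lt_card_of_eval_eq_zero' Q (s.image t)
    · intro x hx
      obtain ⟨i, hi, rfl⟩ := Finset.mem_image.1 hx
      exact hall i hi
    · rw [Finset.card_image_of_injective _ ht.injective, hscard]
      omega
  apply hcon
  left
  ext i
  simp only [Finset.mem_univ, iff_true]
  rw [← hQz, hQ0]
  simp

/-! ### the rational polytope -/

/-- homogeneous coordinates of the vertices; the last entry is the denominator -/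
def N : Fin 14 → Fin 5 → ℤ :=
  ![![0, 0, 0, 1, 1], ![29, 10, 4, 2, 31], ![-29, -70, 30, 100, 129],
    ![116, -110, 101, -62, 199], ![58, -10, 25, -20, 67], ![29, 40, 74, 122, 151],
    ![0, -15, 52, 36, 65], ![116, -95, 136, -52, 209], ![-1, 0, 0, 0, 1],
    ![-58, 5, 2, -24, 63], ![58, 25, 10, -20, 67], ![-58, 20, 37, -14, 73],
    ![-116, 100, 185, -20, 241], ![-116, 65, 200, -20, 241]]

/-- the facets: `∑ A j k x_k + A j 4 ≥ 0` -/
def A : Fin 7 → Fin 5 → ℤ :=
  ![![-11, 7, -3, -9, 9], ![-1, 3, 7, 1, -1], ![1, -7, 3, -1, 1], ![11, -3, -7, -11, 11],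
    ![20, 32, -22, 9, 20], ![0, -9, -21, 62, 25], ![-20, -18, -42, -1, 30]]

/-- `nb m j` is the other vertex on the edge through the vertex `m` opposite to its facet `j` -/
def nb : Fin 14 → Fin 7 → Fin 14 :=
  ![![8, 5, 2, 1, 0, 0, 0], ![10, 5, 4, 0, 0, 0, 0], ![8, 6, 0, 3, 0, 0, 0],
    ![9, 7, 0, 0, 4, 2, 0], ![10, 7, 0, 0, 0, 1, 3], ![12, 0, 6, 1, 0, 0, 0],
    ![13, 0, 0, 7, 5, 0, 2], ![13, 0, 0, 0, 4, 6, 3], ![0, 11, 2, 9, 0, 0, 0],
    ![0, 11, 3, 0, 10, 8, 0], ![0, 12, 4, 0, 0, 1, 9], ![0, 0, 13, 9, 12, 8, 0],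
    ![0, 0, 13, 10, 0, 5, 11], ![0, 0, 0, 7, 12, 6, 11]]

/-- the rational coordinates of the vertices -/
def wq (m : Fin 14) (k : Fin 4) : ℚ := (N m k.castSucc : ℚ) / (N m 4 : ℚ)

/-- the vertices -/
noncomputable def w (m : Fin 14) : E4 := WithLp.toLp 2 fun k => (wq m k : ℝ)

/-- the value of the `j`-th facet inequality at the vertex `m` -/
def gq (j : Fin 7) (m : Fin 14) : ℚ := ∑ k : Fin 4, (A j k.castSucc : ℚ) * wq m k + (A j 4 : ℚ)

theorem gq_nonneg : ∀ j m, 0 ≤ gq j m := by decide +kernel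

theorem gq_zero : ∀ j m, gq j m = 0 ↔ j ∈ gal m := by decide +kernel

theorem nb_spec : ∀ m j, j ∈ gal m → j ∉ gal (nb m j) := by decide +kernel

theorem wq_identity : ∀ m0 m k, wq m k - wq m0 k =
    ∑ j ∈ gal m0, gq j m / gq j (nb m0 j) * (wq (nb m0 j) k - wq m0 k) := by decide +kernel

theorem wq_sphere : ∀ m, ∑ k, wq m k ^ 2 = 1 := by decide +kernel

theorem wq_inj : ∀ m m', (∀ k, wq m k = wq m' k) → m = m' := by decide +kernel

theorem w_inj : Function.Injective w := by
  intro m m' h
  apply wq_inj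
  intro k
  have h1 : w m k = w m' k := by rw [h]
  have h2 : (wq m k : ℝ) = (wq m' k : ℝ) := h1
  exact_mod_cast h2

theorem w_identity (m0 m : Fin 14) : w m - w m0 =
    ∑ j ∈ gal m0, ((gq j m / gq j (nb m0 j) : ℚ) : ℝ) • (w (nb m0 j) - w m0) := by
  ext k
  have h := wq_identity m0 m k
  have h2 : (wq m k : ℝ) - (wq m0 k : ℝ) = ∑ j ∈ gal m0,
      ((gq j m / gq j (nb m0 j) : ℚ) : ℝ) * ((wq (nb m0 j) k : ℝ) - (wq m0 k : ℝ)) := by
    exact_mod_cast h
  simp only [PiLp.sub_apply, WithLp.ofLp_sum, Finset.sum_apply, PiLp.smul_apply, smul_eq_mul]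
  exact h2

/-- the sets of maximal vertices: one direction -/
theorem exists_of_isArg (M : Finset (Fin 14)) (hM : IsArg w M) : ∃ I, CF I ∧ M = star I := by
  rcases hM with rfl | ⟨l, hl⟩
  · exact ⟨Finset.univ, Or.inl rfl, star_univ.symm⟩
  obtain ⟨m0, -, hm0⟩ := Finset.exists_max_image (Finset.univ : Finset (Fin 14))
    (fun m => l (w m)) Finset.univ_nonempty
  have hmax : ∀ m, l (w m) ≤ l (w m0) := fun m => hm0 m (Finset.mem_univ _)
  set c : Fin 7 → ℝ := fun j => (l (w m0) - l (w (nb m0 j))) / (gq j (nb m0 j) : ℝ) with hc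
  have hgpos : ∀ j ∈ gal m0, (0 : ℝ) < gq j (nb m0 j) := by
    intro j hj
    have h1 : gq j (nb m0 j) ≠ 0 := fun h => nb_spec m0 j hj ((gq_zero _ _).1 h)
    exact_mod_cast lt_of_le_of_ne (gq_nonneg _ _) h1.symm
  have hcnn : ∀ j ∈ gal m0, 0 ≤ c j := fun j hj =>
    div_nonneg (sub_nonneg.2 (hmax _)) (hgpos j hj).le
  have hrep : ∀ m, l (w m0) - l (w m) = ∑ j ∈ gal m0, c j * (gq j m : ℝ) := by
    intro m
    have h := congrArg l (w_identity m0 m)
    rw [map_sub, map_sum] at h
    have h2 : l (w m0) - l (w m) = -(l (w m) - l (w m0)) := by ring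
    rw [h2, h, ← Finset.sum_neg_distrib]
    refine Finset.sum_congr rfl fun j hj => ?_
    rw [map_smul, map_sub, smul_eq_mul, hc]
    have := (hgpos j hj).ne'
    push_cast
    field_simp
    ring
  refine ⟨(gal m0).filter fun j => c j ≠ 0, Or.inr ⟨m0, Finset.filter_subset _ _⟩, ?_⟩
  ext m
  rw [hl]
  have h1 : (∀ j, l (w j) ≤ l (w m)) ↔ l (w m0) - l (w m) = 0 := by
    constructor
    · intro h
      have := h m0
      have := hmax m
      linarith
    · intro h j
      have := hmax j
      linarith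
  have hgn : ∀ j, (0 : ℝ) ≤ gq j m := fun j => by exact_mod_cast gq_nonneg j m
  rw [h1, hrep, Finset.sum_eq_zero_iff_of_nonneg fun j hj => mul_nonneg (hcnn j hj) (hgn j)]
  unfold star
  rw [Finset.mem_filter]
  simp only [Finset.mem_univ, true_and]
  constructor
  · intro h j hj
    obtain ⟨hj1, hj2⟩ := Finset.mem_filter.1 hj
    rcases mul_eq_zero.1 (h j hj1) with h3 | h3
    · exact absurd h3 hj2
    · exact (gq_zero j m).1 (by exact_mod_cast h3)
  · intro h j hj
    by_cases hcj : c j = 0
    · rw [hcj, zero_mul]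
    · have h3 := (gq_zero j m).2 (h (Finset.mem_filter.2 ⟨hj, hcj⟩))
      rw [h3]
      simp

/-- the linear form of the facet `j` -/
noncomputable def fac (j : Fin 7) : StrongDual ℝ E4 :=
  ∑ k : Fin 4, (A j k.castSucc : ℝ) • (EuclideanSpace.proj k : E4 →L[ℝ] ℝ)

theorem fac_w (j : Fin 7) (m : Fin 14) : fac j (w m) = (gq j m : ℝ) - (A j 4 : ℝ) := by
  unfold fac gq
  simp [w]

/-- the sets of maximal vertices: the other direction -/
theorem isArg_star (I : Finset (Fin 7)) (hI : CF I) : IsArg w (star I) := by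
  rcases hI with rfl | ⟨m0, hm0⟩
  · exact Or.inl star_univ
  right
  refine ⟨-∑ j ∈ I, fac j, fun m => ?_⟩
  have hval : ∀ m, (-∑ j ∈ I, fac j) (w m) = ∑ j ∈ I, (A j 4 : ℝ) - ∑ j ∈ I, (gq j m : ℝ) := by
    intro m
    rw [ContinuousLinearMap.neg_apply, ContinuousLinearMap.sum_apply]
    simp only [fac_w, Finset.sum_sub_distrib]
    ring
  have hgn : ∀ j m, (0 : ℝ) ≤ gq j m := fun j m => by exact_mod_cast gq_nonneg j m
  have h0 : ∑ j ∈ I, (gq j m0 : ℝ) = 0 := by
    refine Finset.sum_eq_zero fun j hj => ?_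
    rw [(gq_zero j m0).2 (hm0 hj)]
    simp
  unfold star
  rw [Finset.mem_filter]
  simp only [Finset.mem_univ, true_and, hval]
  constructor
  · intro h j
    have h1 : ∑ j ∈ I, (gq j m : ℝ) = 0 := by
      refine Finset.sum_eq_zero fun j hj => ?_
      rw [(gq_zero j m).2 (h hj)]
      simp
    have h2 : (0 : ℝ) ≤ ∑ i ∈ I, (gq i j : ℝ) := Finset.sum_nonneg fun i _ => hgn i j
    linarith
  · intro h j hj
    have h1 := h m0
    rw [h0] at h1
    have h2 : ∑ j ∈ I, (gq j m : ℝ) = 0 :=
      le_antisymm (by linarith) (Finset.sum_nonneg fun i _ => hgn i m)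
    have h3 := (Finset.sum_eq_zero_iff_of_nonneg fun i _ => hgn i m).1 h2 j hj
    exact (gq_zero j m).1 (by exact_mod_cast h3)

/-- the face lattices are dual to each other -/
theorem dual_iso (t : Fin 7 → ℝ) (ht : StrictMono t) :
    Nonempty (FaceLattice (convexHull ℝ (Set.range w)) ≃o (FaceLattice (cyclicPolytope t))ᵒᵈ) := by
  obtain ⟨e1⟩ := faceIso w
  obtain ⟨e2⟩ := faceIso (fun i => moment (t i))
  let f : ({I : Finset (Fin 7) // IsArg (fun i => moment (t i)) I})ᵒᵈ →
      {M : Finset (Fin 14) // IsArg w M} := fun I =>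
    ⟨star (OrderDual.ofDual I).1, isArg_star _ (CF_of_isArg t ht _ (OrderDual.ofDual I).2)⟩
  have hle : ∀ I J, f I ≤ f J ↔ I ≤ J := by
    intro I J
    have hI := CF_of_isArg t ht _ (OrderDual.ofDual I).2
    have hJ := CF_of_isArg t ht _ (OrderDual.ofDual J).2
    constructor
    · intro h
      show (OrderDual.ofDual J).1 ⊆ (OrderDual.ofDual I).1
      have h1 : star (OrderDual.ofDual I).1 ⊆ star (OrderDual.ofDual J).1 := h
      rw [← inter_star _ hI, ← inter_star _ hJ]
      intro j hj
      refine Finset.mem_filter.2 ⟨Finset.mem_univ _, fun m hm => ?_⟩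
      exact (Finset.mem_filter.1 hj).2 m (h1 hm)
    · intro h
      have h1 : (OrderDual.ofDual J).1 ⊆ (OrderDual.ofDual I).1 := h
      show star (OrderDual.ofDual I).1 ⊆ star (OrderDual.ofDual J).1
      intro m hm
      exact Finset.mem_filter.2 ⟨Finset.mem_univ _, h1.trans (Finset.mem_filter.1 hm).2⟩
  have hsurj : Function.Surjective f := by
    rintro ⟨M, hM⟩
    obtain ⟨I, hI, rfl⟩ := exists_of_isArg M hM
    exact ⟨OrderDual.toDual ⟨I, isArg_of_CF t ht I hI⟩, rfl⟩
  exact ⟨e1.trans ((RelIso.ofSurjective (OrderEmbedding.ofMapLEIff f hle) hsurj).symm.trans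
    e2.dual.symm)⟩

theorem w_norm (m : Fin 14) : dist (w m) 0 = 1 := by
  rw [dist_zero_right, EuclideanSpace.norm_eq]
  have h := wq_sphere m
  have h2 : ∑ k, (wq m k : ℝ) ^ 2 = 1 := by exact_mod_cast h
  rw [Real.sqrt_eq_one]
  rw [← h2]
  refine Finset.sum_congr rfl fun k _ => ?_
  rw [Real.norm_eq_abs, sq_abs]
  rfl

/-- **The dual cyclic polytope `C₄(7)*` is inscribable with rational coordinates.** There is a set
`V` of 14 points of `ℝ⁴` with rational coordinates, on a common sphere, such that `V` is the set of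
the vertices (extreme points) of the polytope `conv V`, and the face lattice of this polytope is
isomorphic to the dual of the face lattice of the cyclic polytope `C₄(7)`, for all parameters
`t 0 < … < t 6`. -/
theorem result : ∃ V : Finset E4, V.card = 14 ∧
    (∀ v ∈ V, ∀ k, ∃ q : ℚ, v k = (q : ℝ)) ∧
    (∃ (c : E4) (ρ : ℝ), ∀ v ∈ V, dist v c = ρ) ∧
    Set.extremePoints ℝ (convexHull ℝ (V : Set E4)) = (V : Set E4) ∧
    ∀ t : Fin 7 → ℝ, StrictMono t →
      Nonempty (FaceLattice (convexHull ℝ (V : Set E4)) ≃o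
        (FaceLattice (cyclicPolytope t))ᵒᵈ) := by
  classical
  have hV : ((Finset.univ.image w : Finset E4) : Set E4) = Set.range w := by
    rw [Finset.coe_image, Finset.coe_univ, Set.image_univ]
  refine ⟨Finset.univ.image w, ?_, ?_, ⟨0, 1, ?_⟩, ?_, ?_⟩
  · rw [Finset.card_image_of_injective _ w_inj]
    rfl
  · intro v hv k
    obtain ⟨m, -, rfl⟩ := Finset.mem_image.1 hv
    exact ⟨wq m k, rfl⟩
  · intro v hv
    obtain ⟨m, -, rfl⟩ := Finset.mem_image.1 hv
    exact w_norm m
  · rw [hV]
    apply Set.Subset.antisymm extremePoints_convexHull_subset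
    have hball : convexHull ℝ (Set.range w) ⊆ Metric.closedBall (0 : E4) 1 := by
      refine convexHull_min ?_ (convex_closedBall 0 1)
      rintro _ ⟨m, rfl⟩
      rw [Metric.mem_closedBall, w_norm]
    rintro _ ⟨m, rfl⟩
    apply inter_extremePoints_subset_extremePoints_of_subset hball
    refine ⟨subset_convexHull ℝ _ ⟨m, rfl⟩, ?_⟩
    apply StrictConvexSpace.sphere_subset_extremePoints_closedBall (0 : E4) one_ne_zero
    exact w_norm m
  · intro t ht
    rw [hV]
    exact dual_iso t ht

end Pool.Agent.Results.MP_6ae079_co.RationalInscription
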